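import Mathlib

/-! Borel–Cantelli for the dilates of a vector and sets which are small by a power at every scale. -/

set_option autoImplicit false

open MeasureTheory Filter

open scoped ENNReal

namespace Pool.Agent.V11153.Dil

/-- sets `B n` of measure at most `(A v_n) ^ (dim - δ)`, `∑ v_n ^ (-δ)` finite: almost all dilates `v_n x` avoid them for
large `n` -/
theorem core {ι : Type} [Fintype ι] {δ T₀ : ℝ} {v : ℕ → ℝ} (hv : ∀ n, 1 ≤ v n)
    (hs : Summable fun n => (v n) ^ (-δ)) (A : ℕ) (hA : 1 ≤ A) (B : ℕ → Set (ι → ℝ))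
    (hB : ∀ n, T₀ ≤ A * v n → volume (B n) ≤ ENNReal.ofReal ((A * v n) ^ (Fintype.card ι - δ : ℝ))) :
    ∀ᵐ x : ι → ℝ, ∀ᶠ n in atTop, T₀ ≤ A * v n → v n • x ∉ B n := by
  classical
  have hA0 : (0 : ℝ) < A := by exact_mod_cast hA
  have hvp : ∀ n, 0 < v n := fun n => lt_of_lt_of_le one_pos (hv n)
  set W : ℕ → Set (ι → ℝ) := fun n => if T₀ ≤ A * v n then (fun x : ι → ℝ => v n • x) ⁻¹' (B n) else ∅ with hW
  have hU : ∀ n, volume (W n) ≤ ENNReal.ofReal ((A : ℝ) ^ (Fintype.card ι - δ : ℝ) * (v n) ^ (-δ)) := by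
    intro n
    rw [hW]
    simp only
    split_ifs with h
    · rw [Measure.addHaar_preimage_smul volume (hvp n).ne', Module.finrank_fintype_fun_eq_card,
        abs_of_nonneg (by have := hvp n; positivity)]
      calc ENNReal.ofReal ((v n ^ Fintype.card ι)⁻¹) * volume (B n)
          ≤ ENNReal.ofReal ((v n ^ Fintype.card ι)⁻¹) * ENNReal.ofReal ((A * v n) ^ (Fintype.card ι - δ : ℝ)) := by
            gcongr
            exact hB n h
        _ = ENNReal.ofReal ((v n ^ Fintype.card ι)⁻¹ * (A * v n) ^ (Fintype.card ι - δ : ℝ)) := by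
            rw [ENNReal.ofReal_mul (by have := hvp n; positivity)]
        _ = _ := by
            congr 1
            have h0 := hvp n
            rw [Real.mul_rpow hA0.le h0.le, Real.rpow_sub h0, Real.rpow_natCast, Real.rpow_neg h0.le]
            field_simp
    · simp
  have hsum : ∑' n, volume (W n) ≠ ∞ := by
    have h1 : Summable (fun n => (A : ℝ) ^ (Fintype.card ι - δ : ℝ) * (v n) ^ (-δ)) := hs.mul_left _
    have h2 : ∑' n, ENNReal.ofReal ((A : ℝ) ^ (Fintype.card ι - δ : ℝ) * (v n) ^ (-δ)) ≠ ∞ := by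
      rw [← ENNReal.ofReal_tsum_of_nonneg (fun n => by have := hvp n; positivity) h1]
      exact ENNReal.ofReal_ne_top
    exact ne_top_of_le_ne_top h2 (ENNReal.tsum_le_tsum hU)
  filter_upwards [ae_eventually_notMem hsum] with x hx
  filter_upwards [hx] with n hn hT hmem
  apply hn
  rw [hW]
  simp only [hT, if_true]
  exact hmem

theorem tendsto_v {δ : ℝ} (hδ : 0 < δ) {v : ℕ → ℝ} (hv : ∀ n, 1 ≤ v n) (hs : Summable fun n => (v n) ^ (-δ)) :
    Tendsto v atTop atTop := by
  have h1 := hs.tendsto_atTop_zero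
  rw [tendsto_atTop]
  intro K
  have hK : (0 : ℝ) < (max K 1) ^ (-δ) := Real.rpow_pos_of_pos (lt_of_lt_of_le one_pos (le_max_right _ _)) _
  filter_upwards [h1.eventually_lt_const hK] with n hn
  by_contra hcon
  push Not at hcon
  have h2 : (max K 1) ^ (-δ) ≤ (v n) ^ (-δ) := by
    apply Real.rpow_le_rpow_of_nonpos (lt_of_lt_of_le one_pos (hv n)) _ (by linarith)
    exact hcon.le.trans (le_max_left _ _)
  linarith

/-- `(A v_n) ^ a ≤ v_n ^ b` for large `n` if `a < b` -/
theorem final_bound {a b : ℝ} (hab : a < b) {v : ℕ → ℝ} (hv : ∀ n, 1 ≤ v n) (ht : Tendsto v atTop atTop) (A : ℕ) :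
    ∀ᶠ n in atTop, ((A : ℝ) * v n) ^ a ≤ (v n) ^ b := by
  have h1 : Tendsto (fun n => (v n) ^ (b - a)) atTop atTop := (tendsto_rpow_atTop (by linarith)).comp ht
  filter_upwards [h1.eventually_ge_atTop ((A : ℝ) ^ a)] with n hn
  have h0 : 0 < v n := lt_of_lt_of_le one_pos (hv n)
  rw [Real.mul_rpow (Nat.cast_nonneg _) h0.le, show b = (b - a) + a by ring, Real.rpow_add h0]
  exact mul_le_mul_of_nonneg_right hn (Real.rpow_nonneg h0.le _)

theorem summable_geom {b δ : ℝ} (hb : 1 < b) (hδ : 0 < δ) : Summable fun n : ℕ => ((b ^ n : ℝ)) ^ (-δ) := by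
  have hb0 : (0 : ℝ) < b := by linarith
  have h1 : (fun n : ℕ => ((b ^ n : ℝ)) ^ (-δ)) = fun n : ℕ => (b ^ (-δ)) ^ n := by
    funext n
    rw [← Real.rpow_natCast, ← Real.rpow_mul hb0.le, ← Real.rpow_natCast, ← Real.rpow_mul hb0.le, mul_comm]
  rw [h1]
  apply summable_geometric_of_lt_one (Real.rpow_nonneg hb0.le _)
  exact Real.rpow_lt_one_of_one_lt_of_neg hb (by linarith)

end Pool.Agent.V11153.Dil
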