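import Pool.Agent.V11285.W4

/-! Windows of length a power of the logarithm around `α v_n`, for families `Bad k` of sets of positive integers such that
for every `P` some member has at most `X / (log X) ^ P` elements up to `X`. -/

set_option autoImplicit false

open Finset Filter Topology MeasureTheory

namespace Pool.Agent.V11153.LW

open Pool.Agent.V11285.W4

/-- the member of the family depends only on the sequence and on `B` -/
theorem ae_log_family (Bad : ℕ → ℕ → Prop)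
    (hbad : ∀ P : ℕ, ∃ k : ℕ, ∃ X₀ : ℕ, ∀ X : ℕ, X₀ ≤ X →
      ({N : ℕ | 1 ≤ N ∧ N ≤ X ∧ Bad k N}.ncard : ℝ) ≤ X / Real.log X ^ P)
    {v : ℕ → ℝ} (hv : ∀ n, 1 ≤ v n) (hf : Fast v) (B : ℕ) :
    ∃ k : ℕ, ∀ᵐ α : ℝ, 0 < α → ∃ n₀ : ℕ, ∀ n : ℕ, n₀ ≤ n → ∀ N : ℕ, 1 ≤ N →
      |(N : ℝ) - α * v n| ≤ (Real.log (v n)) ^ B → ¬ Bad k N := by
  obtain ⟨P, hsum, hP⟩ := hf.summable
  obtain ⟨k, X₀, hX₀⟩ := hbad (P + B)
  refine ⟨k, ?_⟩
  have key : ∀ A : ℕ, ∀ᵐ α : ℝ, ∃ n₀ : ℕ, ∀ n : ℕ, n₀ ≤ n →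
      ∀ N ∈ {N : ℕ | 1 ≤ N ∧ N ≤ ⌈((A : ℝ) + 1) * v n⌉₊ ∧ Bad k N}, (Real.log (v n)) ^ B < |(N : ℝ) - α * v n| := by
    intro A
    have hA : (0 : ℝ) ≤ A := Nat.cast_nonneg A
    refine Pool.Agent.V11326.WA.ae_fin _ (fun n => (Set.finite_Icc 1 ⌈((A : ℝ) + 1) * v n⌉₊).subset
      fun N hN => ⟨hN.1, hN.2.1⟩) hv (fun n => pow_nonneg (Real.log_nonneg (hv n)) _)
      (c := fun n => ((A : ℝ) + 2) * ((n : ℝ) ^ (2 : ℝ))⁻¹) ?_ (hsum.mul_left _)
    filter_upwards [hP, (hf.tendsto hv).eventually_ge_atTop (X₀ : ℝ), hf.log_tendsto.eventually_gt_atTop 0]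
      with n h1 h2 h3
    have hv0 : 0 < v n := lt_of_lt_of_le one_pos (hv n)
    have hv1 := hv n
    set X : ℕ := ⌈((A : ℝ) + 1) * v n⌉₊ with hX
    have hXv : v n ≤ (X : ℝ) := by
      refine le_trans ?_ (Nat.le_ceil _)
      nlinarith
    have hX2 : (X : ℝ) ≤ ((A : ℝ) + 2) * v n := by
      have := Nat.ceil_lt_add_one (show 0 ≤ ((A : ℝ) + 1) * v n by positivity)
      nlinarith
    have h4 := hX₀ X (by exact_mod_cast h2.trans hXv)
    have h5 : Real.log (v n) ≤ Real.log X := Real.log_le_log hv0 hXv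
    have h6 : (X : ℝ) / Real.log X ^ (P + B) ≤ ((A : ℝ) + 2) * v n / Real.log (v n) ^ (P + B) := by
      apply div_le_div₀ (by positivity) hX2 (by positivity)
      exact pow_le_pow_left₀ h3.le h5 _
    calc (({N : ℕ | 1 ≤ N ∧ N ≤ X ∧ Bad k N}.ncard : ℕ) : ℝ) * Real.log (v n) ^ B / v n
        ≤ (((A : ℝ) + 2) * v n / Real.log (v n) ^ (P + B)) * Real.log (v n) ^ B / v n := by
          apply div_le_div_of_nonneg_right _ hv0.le
          exact mul_le_mul_of_nonneg_right (h4.trans h6) (by positivity)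
      _ = ((A : ℝ) + 2) * (Real.log (v n) ^ P)⁻¹ := by
          have : Real.log (v n) ≠ 0 := h3.ne'
          rw [pow_add]
          field_simp
      _ ≤ ((A : ℝ) + 2) * ((n : ℝ) ^ (2 : ℝ))⁻¹ := mul_le_mul_of_nonneg_left h1 (by positivity)
  have hall := ae_all_iff.2 key
  filter_upwards [hall] with α hα hα0
  obtain ⟨A, hA⟩ := exists_nat_ge α
  obtain ⟨n₀, hn₀⟩ := hα A
  obtain ⟨n₁, hn₁⟩ := (hf.log_pow_le hv B).exists_forall_of_atTop
  refine ⟨max n₀ n₁, fun n hn N hN hw hbadN => ?_⟩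
  refine absurd (hn₀ n ((le_max_left _ _).trans hn) N ⟨hN, ?_, hbadN⟩) (not_lt.2 hw)
  have h1 := hn₁ n ((le_max_right _ _).trans hn)
  have h2 := (abs_le.1 hw).2
  have h3 : α * v n ≤ A * v n := mul_le_mul_of_nonneg_right hA (by linarith [hv n])
  have h4 : (N : ℝ) ≤ (⌈((A : ℝ) + 1) * v n⌉₊ : ℝ) := by
    refine le_trans ?_ (Nat.le_ceil _)
    linarith
  exact_mod_cast h4

end Pool.Agent.V11153.LW
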