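import Pool.Agent.V11001.KM.Near

/-! Thin sets of integers near the powers of a real number: countably many sets at once. -/

set_option autoImplicit false

open Filter

namespace Pool.Agent.V11153.NearW

open Pool.Agent.V11001.KM (Fast Near)

/-- countably many sets of objects with a height, at most `M X ^ s` of height at most `X` in each of them -/
theorem near {ι T : Type} [Countable ι] (h : T → ℝ) (S : ι → Set T) {s : ℝ} (hs : 0 ≤ s)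
    (hS : ∀ i, ∃ M : ℝ, ∀ X : ℝ, 1 ≤ X → {D : T | D ∈ S i ∧ h D ≤ X}.Finite ∧
      ({D : T | D ∈ S i ∧ h D ≤ X}.ncard : ℝ) ≤ M * X ^ s)
    {ν : ℕ → ℝ} (hν : Fast ν) (U : Set ℝ) (hU : U.Countable) :
    (∀ θ : ℝ, θ < 1 → ∃ E : Set ℝ, dimH E ≤ ENNReal.ofReal (s / (1 - θ)) ∧
      ∀ x : ℝ, 1 < x → x ∉ E → ∀ y ∈ U, 0 < y → ∀ i : ι, {D : T | D ∈ S i ∧ Near ν θ y x (h D)}.Finite) ∧
    (∀ᵐ x : ℝ, 1 < x → ∀ θ : ℝ, θ < 1 - s → ∀ y ∈ U, 0 < y → ∀ i : ι,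
      {D : T | D ∈ S i ∧ Near ν θ y x (h D)}.Finite) := by
  have hS' : ∀ i, ∀ ε : ℝ, 0 < ε → ∃ C : ℝ, ∀ X : ℝ, 1 ≤ X → {D : T | D ∈ S i ∧ h D ≤ X}.Finite ∧
      ({D : T | D ∈ S i ∧ h D ≤ X}.ncard : ℝ) ≤ C * X ^ (s + ε) := by
    intro i ε hε
    obtain ⟨M, hM⟩ := hS i
    refine ⟨|M|, fun X hX => ⟨(hM X hX).1, (hM X hX).2.trans ?_⟩⟩
    calc M * X ^ s ≤ |M| * X ^ s := mul_le_mul_of_nonneg_right (le_abs_self M) (Real.rpow_nonneg (by linarith) _)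
      _ ≤ |M| * X ^ (s + ε) :=
          mul_le_mul_of_nonneg_left (Real.rpow_le_rpow_of_exponent_le hX (by linarith)) (abs_nonneg M)
  exact ⟨fun θ hθ => Pool.Agent.V11001.KM.family h hν hs hθ U hU S hS',
    Pool.Agent.V11001.KM.ae_family h hν hs U hU S hS'⟩

/-- natural numbers -/
theorem nat_near {ι : Type} [Countable ι] (S : ι → Set ℕ) {s : ℝ} (hs : 0 ≤ s)
    (hS : ∀ i, ∃ M : ℝ, ∀ X : ℝ, 1 ≤ X → ({t : ℕ | t ∈ S i ∧ (t : ℝ) ≤ X}.ncard : ℝ) ≤ M * X ^ s)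
    {ν : ℕ → ℝ} (hν : Fast ν) (U : Set ℝ) (hU : U.Countable) :
    (∀ θ : ℝ, θ < 1 → ∃ E : Set ℝ, dimH E ≤ ENNReal.ofReal (s / (1 - θ)) ∧
      ∀ x : ℝ, 1 < x → x ∉ E → ∀ y ∈ U, 0 < y → ∀ i : ι, {t : ℕ | t ∈ S i ∧ Near ν θ y x (t : ℝ)}.Finite) ∧
    (∀ᵐ x : ℝ, 1 < x → ∀ θ : ℝ, θ < 1 - s → ∀ y ∈ U, 0 < y → ∀ i : ι,
      {t : ℕ | t ∈ S i ∧ Near ν θ y x (t : ℝ)}.Finite) := by
  refine near (fun t : ℕ => (t : ℝ)) S hs (fun i => ?_) hν U hU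
  obtain ⟨M, hM⟩ := hS i
  refine ⟨M, fun X hX => ⟨(Set.finite_Icc 0 ⌊X⌋₊).subset fun t ht => ⟨Nat.zero_le _, Nat.le_floor ht.2⟩, hM X hX⟩⟩

end Pool.Agent.V11153.NearW
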