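import Mathlib

/-! From counts in dyadic shells to counts up to `X`, for sets with a real height. -/

set_option autoImplicit false

namespace Pool.Agent.V11153.Shell

theorem count_shells {T : Type*} (S : Set T) (h : T → ℝ) {σ X0 C : ℝ} (hσ : 0 < σ) (hX0 : 1 ≤ X0)
    (hfin : ∀ X : ℝ, {t | t ∈ S ∧ h t ≤ X}.Finite)
    (hsh : ∀ X : ℝ, X0 ≤ X → (({t | t ∈ S ∧ X < h t ∧ h t ≤ 2 * X}.ncard : ℕ) : ℝ) ≤ C * X ^ σ) :
    ∃ M : ℝ, ∀ X : ℝ, 1 ≤ X → {t | t ∈ S ∧ h t ≤ X}.Finite ∧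
      (({t | t ∈ S ∧ h t ≤ X}.ncard : ℕ) : ℝ) ≤ M * X ^ σ := by
  set N : ℝ → ℝ := fun X => (({t | t ∈ S ∧ h t ≤ X}.ncard : ℕ) : ℝ) with hN
  have hq : (1 : ℝ) < 2 ^ σ := Real.one_lt_rpow (by norm_num) hσ
  set M : ℝ := max (N (2 * X0)) (C / (2 ^ σ - 1)) with hM
  have hM0 : 0 ≤ M := le_trans (Nat.cast_nonneg _) (le_max_left _ _)
  have hMC : C ≤ M * (2 ^ σ - 1) := by
    have := le_max_right (N (2 * X0)) (C / (2 ^ σ - 1))
    rwa [div_le_iff₀ (by linarith)] at this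
  have hmono : ∀ X Y : ℝ, X ≤ Y → N X ≤ N Y := by
    intro X Y hXY
    have : {t | t ∈ S ∧ h t ≤ X}.ncard ≤ {t | t ∈ S ∧ h t ≤ Y}.ncard :=
      Set.ncard_le_ncard (fun t ht => ⟨ht.1, ht.2.trans hXY⟩) (hfin Y)
    simp only [hN]
    exact_mod_cast this
  have key : ∀ k : ℕ, ∀ X : ℝ, 1 ≤ X → X ≤ 2 ^ k * (2 * X0) → N X ≤ M * X ^ σ := by
    intro k
    induction k with
    | zero =>
      intro X hX hX1
      rw [pow_zero, one_mul] at hX1
      have h1 : 1 ≤ X ^ σ := Real.one_le_rpow hX hσ.le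
      calc N X ≤ N (2 * X0) := hmono _ _ hX1
        _ ≤ M := le_max_left _ _
        _ ≤ M * X ^ σ := le_mul_of_one_le_right hM0 h1
    | succ k ih =>
      intro X hX hX1
      by_cases hsm : X ≤ 2 * X0
      · have h1 : 1 ≤ X ^ σ := Real.one_le_rpow hX hσ.le
        calc N X ≤ N (2 * X0) := hmono _ _ hsm
          _ ≤ M := le_max_left _ _
          _ ≤ M * X ^ σ := le_mul_of_one_le_right hM0 h1
      · push Not at hsm
        have hY : X0 ≤ X / 2 := by linarith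
        have hY1 : X / 2 ≤ 2 ^ k * (2 * X0) := by
          rw [pow_succ] at hX1
          linarith
        have h1 := ih (X / 2) (by linarith) hY1
        have h2 := hsh (X / 2) hY
        have h3 : N X ≤ N (X / 2) + (({t | t ∈ S ∧ X / 2 < h t ∧ h t ≤ 2 * (X / 2)}.ncard : ℕ) : ℝ) := by
          have hsub : {t | t ∈ S ∧ h t ≤ X} ⊆ {t | t ∈ S ∧ h t ≤ X / 2} ∪
              {t | t ∈ S ∧ X / 2 < h t ∧ h t ≤ 2 * (X / 2)} := by
            rintro t ⟨ht, htX⟩
            by_cases h4 : h t ≤ X / 2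
            · exact Or.inl ⟨ht, h4⟩
            · exact Or.inr ⟨ht, not_le.1 h4, by linarith⟩
          have hfin2 : {t | t ∈ S ∧ X / 2 < h t ∧ h t ≤ 2 * (X / 2)}.Finite :=
            (hfin (2 * (X / 2))).subset fun t ht => ⟨ht.1, ht.2.2⟩
          have := (Set.ncard_le_ncard hsub ((hfin _).union hfin2)).trans (Set.ncard_union_le _ _)
          simp only [hN]
          exact_mod_cast this
        have h4 : (2 : ℝ) ^ σ * (X / 2) ^ σ = X ^ σ := by
          rw [← Real.mul_rpow (by norm_num) (by linarith)]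
          congr 1
          ring
        have h5 : 0 ≤ (X / 2) ^ σ := Real.rpow_nonneg (by linarith) _
        have h6 : (M + C) * (X / 2) ^ σ ≤ M * 2 ^ σ * (X / 2) ^ σ :=
          mul_le_mul_of_nonneg_right (by linarith) h5
        calc N X ≤ M * (X / 2) ^ σ + C * (X / 2) ^ σ := by linarith
          _ = (M + C) * (X / 2) ^ σ := by ring
          _ ≤ M * 2 ^ σ * (X / 2) ^ σ := h6
          _ = M * X ^ σ := by rw [← h4]; ring
  refine ⟨M, fun X hX => ⟨hfin X, ?_⟩⟩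
  obtain ⟨k, hk⟩ := pow_unbounded_of_one_lt X (show (1 : ℝ) < 2 by norm_num)
  refine key k X hX (hk.le.trans ?_)
  have : (0 : ℝ) < 2 ^ k := by positivity
  nlinarith

end Pool.Agent.V11153.Shell
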