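import Mathlib
import Pool.Agent.H523R3.TransMain

/-!
# Transversals of simplicial 1-spheres
-/

set_option autoImplicit false

namespace Pool.Agent.V11153.Circle

open Pool.Agent.H523R3.Trans Set Filter Topology

variable {n : ℕ} {Δ : Set (Finset (Fin n))}

/-- the vertex `v` as a point of the realisation -/
theorem single_mem (hΔ : IsComplex Δ) (v : Fin n) :
    (Pi.single v 1 : Fin n → ℝ) ∈ realization Δ := by
  refine ⟨fun i => ?_, by simp, ?_⟩
  · by_cases h : i = v
    · subst h; simp
    · simp [Pi.single_apply, h]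
  · have : (Finset.univ.filter fun i => (Pi.single v 1 : Fin n → ℝ) i ≠ 0) = {v} := by
      ext i
      by_cases h : i = v
      · subst h; simp
      · simp [Pi.single_apply, h]
    rw [this]
    exact hΔ.vert v

/-- the points of the segment from `u` to `v` -/
def segPt (u v : Fin n) (t : ℝ) : Fin n → ℝ :=
  (1 - t) • (Pi.single u 1 : Fin n → ℝ) + t • (Pi.single v 1 : Fin n → ℝ)

theorem segPt_mem (hΔ : IsComplex Δ) {u v : Fin n} {s : Finset (Fin n)} (hs : s ∈ Δ) (hu : u ∈ s)
    (hv : v ∈ s) {t : ℝ} (ht : t ∈ Icc (0 : ℝ) 1) : segPt u v t ∈ realization Δ := by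
  refine ⟨fun i => ?_, ?_, ?_⟩
  · unfold segPt
    have h1 : 0 ≤ (Pi.single u 1 : Fin n → ℝ) i := by
      by_cases h : i = u
      · subst h; simp
      · simp [Pi.single_apply, h]
    have h2 : 0 ≤ (Pi.single v 1 : Fin n → ℝ) i := by
      by_cases h : i = v
      · subst h; simp
      · simp [Pi.single_apply, h]
    simp only [Pi.add_apply, Pi.smul_apply, smul_eq_mul]
    have := mul_nonneg (sub_nonneg.2 ht.2) h1
    have := mul_nonneg ht.1 h2
    linarith
  · unfold segPt
    simp only [Pi.add_apply, Pi.smul_apply, smul_eq_mul, Finset.sum_add_distrib,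
      ← Finset.mul_sum, Finset.sum_pi_single', Finset.mem_univ, if_true]
    ring
  · refine hΔ.down s hs _ ?_
    intro i hi
    rw [Finset.mem_filter] at hi
    by_contra hn
    apply hi.2
    have h1 : i ≠ u := fun h => hn (h ▸ hu)
    have h2 : i ≠ v := fun h => hn (h ▸ hv)
    simp [segPt, Pi.single_apply, h1, h2]

theorem segPt_zero (u v : Fin n) : segPt u v 0 = Pi.single u 1 := by simp [segPt]

theorem segPt_one (u v : Fin n) : segPt u v 1 = Pi.single v 1 := by simp [segPt]

theorem segPt_other {u v w : Fin n} (h1 : w ≠ u) (h2 : w ≠ v) (t : ℝ) : segPt u v t w = 0 := by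
  simp [segPt, Pi.single_apply, h1, h2]

theorem continuous_segPt (u v : Fin n) : Continuous (segPt u v) := by
  unfold segPt
  fun_prop

/-- A continuous injective real function on the realisation without one vertex. -/
theorem exists_real (h : IsSimplicialSphere 2 Δ) (v₀ : Fin n) :
    ∃ g : realization Δ → ℝ,
      ContinuousOn g {y | y ≠ ⟨Pi.single v₀ 1, single_mem h.1 v₀⟩} ∧
      InjOn g {y | y ≠ ⟨Pi.single v₀ 1, single_mem h.1 v₀⟩} := by
  obtain ⟨hΔ, ⟨φ⟩⟩ := h
  haveI : Fact (Module.finrank ℝ (E 2) = 1 + 1) := ⟨by simp⟩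
  set q := φ ⟨Pi.single v₀ 1, single_mem hΔ v₀⟩ with hq
  have hmaps : MapsTo φ {y | y ≠ ⟨Pi.single v₀ 1, single_mem hΔ v₀⟩}
      (stereographic' 1 q).source := by
    intro y hy
    rw [stereographic'_source]
    intro h
    exact hy (φ.injective h)
  refine ⟨fun y => (stereographic' 1 q (φ y)) 0, ?_, ?_⟩
  · have h1 : ContinuousOn (fun y => stereographic' 1 q (φ y))
        {y | y ≠ ⟨Pi.single v₀ 1, single_mem hΔ v₀⟩} :=
      (stereographic' 1 q).continuousOn.comp φ.continuous.continuousOn hmaps
    have h2 : Continuous fun z : EuclideanSpace ℝ (Fin 1) => z 0 := by fun_prop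
    exact h2.comp_continuousOn h1
  · intro y hy z hz hyz
    apply φ.injective
    apply (stereographic' 1 q).injOn (hmaps hy) (hmaps hz)
    ext i
    fin_cases i
    exact hyz

/-- the vertex `v` as a point of the realisation -/
noncomputable def vx (hΔ : IsComplex Δ) (v : Fin n) : realization Δ :=
  ⟨Pi.single v 1, single_mem hΔ v⟩

theorem vx_injective (hΔ : IsComplex Δ) : Function.Injective (vx hΔ) := by
  intro u v h
  by_contra hne
  have h1 := congrFun (congrArg Subtype.val h) u
  simp [vx, Pi.single_apply, hne] at h1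

theorem not_between (hΔ : IsComplex Δ) {v₀ : Fin n} {g : realization Δ → ℝ}
    (hc : ContinuousOn g {y | y ≠ vx hΔ v₀}) (hi : InjOn g {y | y ≠ vx hΔ v₀})
    {s : Finset (Fin n)} (hs : s ∈ Δ) {u v w : Fin n} (hu : u ∈ s) (hv : v ∈ s)
    (hu0 : v₀ ≠ u) (hv0 : v₀ ≠ v) (hw0 : v₀ ≠ w) (hwu : w ≠ u) (hwv : w ≠ v)
    (h1 : g (vx hΔ u) < g (vx hΔ w)) (h2 : g (vx hΔ w) < g (vx hΔ v)) : False := by
  let γ : Icc (0 : ℝ) 1 → realization Δ := fun t => ⟨segPt u v t, segPt_mem hΔ hs hu hv t.2⟩
  have hγ : Continuous γ :=
    Continuous.subtype_mk ((continuous_segPt u v).comp continuous_subtype_val) _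
  have hγ0 : ∀ t, γ t ∈ {y | y ≠ vx hΔ v₀} := by
    intro t h
    have h3 := congrFun (congrArg Subtype.val h) v₀
    have h4 : segPt u v (t : ℝ) v₀ = 1 := by
      rw [show segPt u v (t : ℝ) v₀ = (γ t).1 v₀ from rfl, h3]
      simp [vx]
    rw [segPt_other hu0 hv0] at h4
    exact zero_ne_one h4
  have hG : Continuous fun t => g (γ t) := hc.comp_continuous hγ hγ0
  have e0 : γ ⟨0, by simp⟩ = vx hΔ u := Subtype.ext (segPt_zero u v)
  have e1 : γ ⟨1, by simp⟩ = vx hΔ v := Subtype.ext (segPt_one u v)
  obtain ⟨t, ht⟩ := mem_range_of_exists_le_of_exists_ge hG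
    (c := g (vx hΔ w)) ⟨⟨0, by simp⟩, by rw [e0]; exact h1.le⟩ ⟨⟨1, by simp⟩, by rw [e1]; exact h2.le⟩
  have h3 : γ t = vx hΔ w := by
    refine hi (hγ0 t) ?_ ht
    intro h
    exact hw0 ((vx_injective hΔ h).symm)
  have h4 : segPt u v (t : ℝ) w = 1 := by
    rw [show segPt u v (t : ℝ) w = (γ t).1 w from rfl, h3]
    simp [vx]
  rw [segPt_other hwu hwv] at h4
  exact zero_ne_one h4

/-- no vertex of a simplicial 1-sphere is isolated -/
theorem not_isolated (h : IsSimplicialSphere 2 Δ) {v₀ v : Fin n} (hv : v₀ ≠ v)
    (hf : IsFacet Δ {v}) : False := by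
  obtain ⟨hΔ, ⟨φ⟩⟩ := h
  have hrank : 1 < Module.rank ℝ (E 2) := by
    rw [← Module.finrank_eq_rank]
    simp
  haveI : PreconnectedSpace (Metric.sphere (0 : E 2) 1) :=
    isPreconnected_iff_preconnectedSpace.1 (isPreconnected_sphere hrank 0 1)
  haveI : PreconnectedSpace (realization Δ) := by
    refine ⟨?_⟩
    have h1 := (isPreconnected_univ (α := Metric.sphere (0 : E 2) 1)).image φ.symm
      φ.symm.continuous.continuousOn
    rwa [Set.image_univ, φ.symm.surjective.range_eq] at h1
  have hcl : IsClopen ({vx hΔ v} : Set (realization Δ)) := by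
    refine ⟨isClosed_singleton, ?_⟩
    have : ({vx hΔ v} : Set (realization Δ)) = {y | 0 < y.1 v} := by
      ext y
      rw [mem_singleton_iff, mem_ofPred_eq]
      constructor
      · rintro rfl
        simp [vx]
      · intro hy
        obtain ⟨h1, h2, h3⟩ := y.2
        have h4 := hf.2 _ h3 (by
          intro i hi
          rw [Finset.mem_singleton] at hi
          subst hi
          rw [Finset.mem_filter]
          exact ⟨Finset.mem_univ _, hy.ne'⟩)
        have h5 : ∀ i, i ≠ v → y.1 i = 0 := by
          intro i hi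
          by_contra hn
          have : i ∈ Finset.univ.filter (fun i => y.1 i ≠ 0) := by
            rw [Finset.mem_filter]
            exact ⟨Finset.mem_univ _, hn⟩
          rw [h4, Finset.mem_singleton] at this
          exact hi this
        apply Subtype.ext
        funext i
        by_cases hi : i = v
        · subst hi
          rw [Finset.sum_eq_single i (fun j _ hj => h5 j hj) (by simp)] at h2
          rw [h2]
          simp [vx]
        · rw [h5 i hi]
          simp [vx, Pi.single_apply, hi]
    rw [this]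
    exact isOpen_lt continuous_const ((continuous_apply v).comp continuous_subtype_val)
  rcases isClopen_iff.1 hcl with h1 | h1
  · exact (Set.singleton_ne_empty _) h1
  · have : vx hΔ v₀ ∈ ({vx hΔ v} : Set (realization Δ)) := by rw [h1]; trivial
    exact hv (vx_injective hΔ this)

/-- A simplicial 1-sphere with `n` vertices has a transversal with at most `(n + 1) / 2`
vertices. -/
theorem exists_transversal (h : IsSimplicialSphere 2 Δ) :
    ∃ W : Finset (Fin n), IsTransversal Δ W ∧ W.card ≤ (n + 1) / 2 := by
  classical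
  have hn : 0 < n := by
    rcases Nat.eq_zero_or_pos n with hn | hn
    · subst hn
      exfalso
      obtain ⟨hΔ, ⟨φ⟩⟩ := h
      have hne : (Metric.sphere (0 : E 2) 1).Nonempty := (NormedSpace.sphere_nonempty).2 zero_le_one
      obtain ⟨p, hp⟩ := hne
      have := (φ.symm ⟨p, hp⟩).2.2.1
      simp at this
    · exact hn
  set v₀ : Fin n := ⟨0, hn⟩
  obtain ⟨g, hc, hi⟩ := exists_real h v₀
  have hΔ := h.1
  change ContinuousOn g {y | y ≠ vx hΔ v₀} at hc
  change InjOn g {y | y ≠ vx hΔ v₀} at hi
  let r : Fin n → ℕ := fun u =>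
    (Finset.univ.filter fun w => w ≠ v₀ ∧ g (vx hΔ w) < g (vx hΔ u)).card
  have hginj : ∀ u v, u ≠ v₀ → v ≠ v₀ → g (vx hΔ u) = g (vx hΔ v) → u = v := by
    intro u v hu hv huv
    exact vx_injective hΔ (hi (fun h => hu (vx_injective hΔ h)) (fun h => hv (vx_injective hΔ h)) huv)
  have hrlt : ∀ u v, u ≠ v₀ → g (vx hΔ u) < g (vx hΔ v) → r u < r v := by
    intro u v hu huv
    apply Finset.card_lt_card
    rw [Finset.ssubset_iff_of_subset]
    · refine ⟨u, ?_, ?_⟩
      · simp [hu, huv]
      · simp
    · intro w hw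
      rw [Finset.mem_filter] at hw ⊢
      exact ⟨hw.1, hw.2.1, hw.2.2.trans huv⟩
  have hrinj : ∀ u v, u ≠ v₀ → v ≠ v₀ → r u = r v → u = v := by
    intro u v hu hv huv
    rcases lt_trichotomy (g (vx hΔ u)) (g (vx hΔ v)) with h1 | h1 | h1
    · exact absurd huv (hrlt u v hu h1).ne
    · exact hginj u v hu hv h1
    · exact absurd huv (hrlt v u hv h1).ne'
  have hrn : ∀ u, u ≠ v₀ → r u < n - 1 := by
    intro u hu
    have h1 : (Finset.univ.filter fun w => w ≠ v₀ ∧ g (vx hΔ w) < g (vx hΔ u)) ⊆
        (Finset.univ.erase v₀).erase u := by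
      intro w hw
      rw [Finset.mem_filter] at hw
      rw [Finset.mem_erase, Finset.mem_erase]
      refine ⟨?_, hw.2.1, Finset.mem_univ _⟩
      rintro rfl
      exact lt_irrefl _ hw.2.2
    have h2 := Finset.card_le_card h1
    rw [Finset.card_erase_of_mem (by simp [hu]), Finset.card_erase_of_mem (Finset.mem_univ _),
      Finset.card_univ, Fintype.card_fin] at h2
    have h3 : 1 < n := by
      by_contra hn1
      have : n = 1 := by omega
      subst this
      exact hu (Subsingleton.elim _ _)
    change r u ≤ n - 1 - 1 at h2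
    omega
  refine ⟨insert v₀ (Finset.univ.filter fun u => u ≠ v₀ ∧ r u % 2 = 1), ?_, ?_⟩
  · intro s hs
    rcases s.eq_empty_or_nonempty with rfl | ⟨u, hu⟩
    · exact absurd (hs.2 {v₀} (hΔ.vert _) (Finset.empty_subset _)) (Finset.singleton_ne_empty _)
    · by_cases h0 : v₀ ∈ s
      · exact ⟨v₀, h0, Finset.mem_insert_self _ _⟩
      · have hne0 : ∀ x ∈ s, x ≠ v₀ := fun x hx hx0 => h0 (hx0 ▸ hx)
        by_cases hone : ∃ v ∈ s, v ≠ u
        · obtain ⟨v, hv, huv⟩ := hone
          have hcons : r u + 1 = r v ∨ r v + 1 = r u := by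
            have main : ∀ a b, a ∈ s → b ∈ s → g (vx hΔ a) < g (vx hΔ b) → r a + 1 = r b := by
              intro a b ha hb hab
              have hset : (Finset.univ.filter fun w => w ≠ v₀ ∧ g (vx hΔ w) < g (vx hΔ b)) =
                  insert a (Finset.univ.filter fun w => w ≠ v₀ ∧ g (vx hΔ w) < g (vx hΔ a)) := by
                ext w
                rw [Finset.mem_insert, Finset.mem_filter, Finset.mem_filter]
                constructor
                · rintro ⟨_, hw0, hw⟩
                  by_cases hwa : w = a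
                  · exact Or.inl hwa
                  · refine Or.inr ⟨Finset.mem_univ _, hw0, ?_⟩
                    by_contra hcon
                    rw [not_lt] at hcon
                    have hcon' : g (vx hΔ a) < g (vx hΔ w) :=
                      lt_of_le_of_ne hcon fun h => hwa (hginj a w (hne0 a ha) hw0 h).symm
                    refine not_between hΔ hc hi hs.1 ha hb (hne0 a ha).symm (hne0 b hb).symm
                      hw0.symm hwa ?_ hcon' hw
                    rintro rfl
                    exact lt_irrefl _ hw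
                · rintro (rfl | ⟨_, hw0, hw⟩)
                  · exact ⟨Finset.mem_univ _, hne0 _ ha, hab⟩
                  · exact ⟨Finset.mem_univ _, hw0, hw.trans hab⟩
              change _ = (Finset.univ.filter fun w => w ≠ v₀ ∧ g (vx hΔ w) < g (vx hΔ b)).card
              rw [hset, Finset.card_insert_of_notMem (by simp)]
            rcases lt_trichotomy (g (vx hΔ u)) (g (vx hΔ v)) with h1 | h1 | h1
            · exact Or.inl (main u v hu hv h1)
            · exact absurd (hginj u v (hne0 u hu) (hne0 v hv) h1).symm huv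
            · exact Or.inr (main v u hv hu h1)
          rcases Nat.mod_two_eq_zero_or_one (r u) with h1 | h1
          · refine ⟨v, hv, Finset.mem_insert_of_mem ?_⟩
            rw [Finset.mem_filter]
            exact ⟨Finset.mem_univ _, hne0 v hv, by omega⟩
          · refine ⟨u, hu, Finset.mem_insert_of_mem ?_⟩
            rw [Finset.mem_filter]
            exact ⟨Finset.mem_univ _, hne0 u hu, h1⟩
        · exfalso
          have hs1 : s = {u} := by
            ext x
            rw [Finset.mem_singleton]
            constructor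
            · intro hx
              by_contra hxu
              exact hone ⟨x, hx, hxu⟩
            · rintro rfl
              exact hu
          rw [hs1] at hs
          exact not_isolated h (hne0 u hu).symm hs
  · refine (Finset.card_insert_le _ _).trans ?_
    have h1 : (Finset.univ.filter fun u => u ≠ v₀ ∧ r u % 2 = 1).card ≤ (n - 1) / 2 := by
      have h2 : (Finset.univ.filter fun u => u ≠ v₀ ∧ r u % 2 = 1).card ≤
          (Finset.range ((n - 1) / 2)).card := by
        refine Finset.card_le_card_of_injOn (fun u => r u / 2) ?_ ?_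
        · intro u hu
          rw [Finset.mem_coe, Finset.mem_filter] at hu
          have h3 := hrn u hu.2.1
          have h4 := hu.2.2
          rw [Finset.mem_coe, Finset.mem_range]
          change r u / 2 < (n - 1) / 2
          omega
        · intro u hu v hv huv
          rw [Finset.mem_coe, Finset.mem_filter] at hu hv
          have h3 := hu.2.2
          have h4 := hv.2.2
          change r u / 2 = r v / 2 at huv
          exact hrinj u v hu.2.1 hv.2.1 (by omega)
      rwa [Finset.card_range] at h2
    omega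

theorem ratio_le (h : IsSimplicialSphere 2 Δ) :
    transversalRatio Δ ≤ 1 / 2 + 1 / (n : ℝ) := by
  obtain ⟨W, hW, hc⟩ := exists_transversal h
  have h1 : transversalNumber Δ ≤ (n + 1) / 2 :=
    (Nat.sInf_le (show W.card ∈ {k | ∃ W, IsTransversal Δ W ∧ W.card = k} from
      ⟨W, hW, rfl⟩)).trans hc
  unfold transversalRatio
  rcases Nat.eq_zero_or_pos n with hn | hn
  · subst hn
    simp
  · have hn' : (0 : ℝ) < n := by exact_mod_cast hn
    rw [div_le_iff₀ hn', add_mul, div_mul_cancel₀ _ hn'.ne']
    have h2 : transversalNumber Δ * 2 ≤ n + 1 := by omega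
    have h3 : (transversalNumber Δ : ℝ) * 2 ≤ n + 1 := by exact_mod_cast h2
    linarith

end Pool.Agent.V11153.Circle
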