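import Mathlib
import Pool.Agent.V11153.Circle

/-!
# Simplicial 3-polytopes with transversal ratio close to one half
-/

set_option autoImplicit false

namespace Pool.Agent.V11153.Tube

open Pool.Agent.H523R3.Trans Pool.Agent.H523R3.Frames Set Filter Topology

/-- height functions of the tube -/
def ht (k : ℕ) (i : ℕ) : ℤ :=
  if k = 0 then
    (if i % 4 = 0 then 10 * (i / 4 : ℕ) + 8 else if i % 4 = 1 then -10 * (i / 4 : ℕ)
      else if i % 4 = 2 then -10 * (i / 4 : ℕ) + 3 else -10 * (i / 4 : ℕ) - 1)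
  else if k = 1 then
    (if i % 4 = 0 then -10 * (i / 4 : ℕ) + 7 else if i % 4 = 1 then 10 * (i / 4 : ℕ) + 22
      else if i % 4 = 2 then -10 * (i / 4 : ℕ) - 1 else 10 * (i / 4 : ℕ) + 25)
  else
    (if i % 4 = 0 then -10 * (i / 4 : ℕ) + 2 else if i % 4 = 1 then -10 * (i / 4 : ℕ) + 3
      else if i % 4 = 2 then 10 * (i / 4 : ℕ) + 25 else -10 * (i / 4 : ℕ) - 6)

theorem ht_anti (i j : ℕ) (h : i ≠ j) : ht 0 i < ht 0 j ∨ ht 1 i < ht 1 j ∨ ht 2 i < ht 2 j := by
  by_contra hn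
  simp only [not_or, not_lt] at hn
  obtain ⟨h0, h1, h2⟩ := hn
  simp only [ht, if_true, one_ne_zero, if_false, OfNat.ofNat_ne_zero, OfNat.ofNat_ne_one] at h0 h1 h2
  have hi : i % 4 = 0 ∨ i % 4 = 1 ∨ i % 4 = 2 ∨ i % 4 = 3 := by omega
  have hj : j % 4 = 0 ∨ j % 4 = 1 ∨ j % 4 = 2 ∨ j % 4 = 3 := by omega
  rcases hi with hi | hi | hi | hi <;> rcases hj with hj | hj | hj | hj <;>
    simp [hi, hj] at h0 h1 h2 <;> omega

/-- the frame property for three indices -/
def IsFr (p q r : ℕ) : Prop :=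
  (ht 0 q < ht 0 p ∧ ht 0 r < ht 0 p) ∧ (ht 1 p < ht 1 q ∧ ht 1 r < ht 1 q) ∧
    (ht 2 p < ht 2 r ∧ ht 2 q < ht 2 r) ∧
    ∀ v, v ≠ p → v ≠ q → v ≠ r → ht 0 p < ht 0 v ∨ ht 1 q < ht 1 v ∨ ht 2 r < ht 2 v

theorem frames (j : ℕ) :
    IsFr (4 * j) (4 * j + 3) (4 * j + 1) ∧
    IsFr (4 * j + 4) (4 * j) (4 * j + 2) ∧
    IsFr (4 * j + 4) (4 * j + 5) (4 * j + 3) ∧
    IsFr (4 * j + 4) (4 * j + 2) (4 * j + 6) ∧
    IsFr (4 * j + 3) (4 * j + 5) (4 * j + 6) ∧
    IsFr (4 * j + 2) (4 * j + 1) (4 * j + 6) ∧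
    IsFr (4 * j + 1) (4 * j + 3) (4 * j + 6) ∧
    IsFr (4 * j + 4) (4 * j + 3) (4 * j) := by
  have e0 : 4 * j % 4 = 0 ∧ 4 * j / 4 = j := by omega
  have e1 : (4 * j + 1) % 4 = 1 ∧ (4 * j + 1) / 4 = j := by omega
  have e2 : (4 * j + 2) % 4 = 2 ∧ (4 * j + 2) / 4 = j := by omega
  have e3 : (4 * j + 3) % 4 = 3 ∧ (4 * j + 3) / 4 = j := by omega
  have e4 : (4 * j + 4) % 4 = 0 ∧ (4 * j + 4) / 4 = j + 1 := by omega
  have e5 : (4 * j + 5) % 4 = 1 ∧ (4 * j + 5) / 4 = j + 1 := by omega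
  have e6 : (4 * j + 6) % 4 = 2 ∧ (4 * j + 6) / 4 = j + 1 := by omega
  refine ⟨?_, ?_, ?_, ?_, ?_, ?_, ?_, ?_⟩ <;>
  · refine ⟨⟨?_, ?_⟩, ⟨?_, ?_⟩, ⟨?_, ?_⟩, ?_⟩
    iterate 6
      simp [ht, e0.1, e0.2, e1.1, e1.2, e2.1, e2.2, e3.1, e3.2, e4.1, e4.2, e5.1, e5.2, e6.1, e6.2]
      try omega
    intro v hp hq hr
    by_contra hn
    simp only [not_or, not_lt] at hn
    obtain ⟨h0, h1, h2⟩ := hn
    simp only [ht, if_true, one_ne_zero, if_false, OfNat.ofNat_ne_zero, OfNat.ofNat_ne_one,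
      e0.1, e0.2, e1.1, e1.2, e2.1, e2.2, e3.1, e3.2, e4.1, e4.2, e5.1, e5.2, e6.1, e6.2] at h0 h1 h2
    have hv : v % 4 = 0 ∨ v % 4 = 1 ∨ v % 4 = 2 ∨ v % 4 = 3 := by omega
    rcases hv with hv | hv | hv | hv <;> simp [hv] at h0 h1 h2 <;> omega

/-- every transversal of the boundary of the tube polytope contains at least `2 L` vertices -/
theorem exists_tube (L : ℕ) (hL : 0 < L) :
    ∃ p : Fin (4 * L + 3) → E 3, IsSimplicialPolytope 3 p ∧
      ∀ W, IsTransversal (boundary p) W → 2 * L ≤ W.card := by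
  classical
  set n := 4 * L + 3 with hn
  let F : Fin 3 → Fin n → ℤ := fun k i => ht k i
  obtain ⟨s, hs, hF, hgp⟩ := exists_paramD (by norm_num : 0 < 3) F
  have hanti : ∀ i j, i ≠ j → ∃ k, F k i < F k j := by
    intro i j hij
    rcases ht_anti i j (fun h => hij (Fin.ext h)) with h | h | h
    · exact ⟨0, h⟩
    · exact ⟨1, h⟩
    · exact ⟨2, h⟩
  have hp := isSimplicialPolytope_pt (by norm_num : 0 < 3) (by omega) F hanti hs hF hgp
  refine ⟨pt F s, hp, fun W hW => ?_⟩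
  have key : ∀ p q r : ℕ, p < n → q < n → r < n → IsFr p q r →
      p ∈ W.image (fun v : Fin n => (v : ℕ)) ∨ q ∈ W.image (fun v : Fin n => (v : ℕ)) ∨
        r ∈ W.image (fun v : Fin n => (v : ℕ)) := by
    intro p q r hp' hq' hr' hfr
    obtain ⟨⟨a1, a2⟩, ⟨b1, b2⟩, ⟨c1, c2⟩, hv⟩ := hfr
    have hfac := isFacet_of_frame (by norm_num : 0 < 3) F hs hF hp
      ![(⟨p, hp'⟩ : Fin n), ⟨q, hq'⟩, ⟨r, hr'⟩] (by
        intro k l hkl
        fin_cases k <;> fin_cases l <;>
          first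
          | exact absurd rfl hkl
          | exact a1
          | exact a2
          | exact b1
          | exact b2
          | exact c1
          | exact c2) (by
        intro v hne
        have h0 := hne 0
        have h1 := hne 1
        have h2 := hne 2
        rcases hv v (fun h => h0 (Fin.ext h)) (fun h => h1 (Fin.ext h))
          (fun h => h2 (Fin.ext h)) with h | h | h
        · exact ⟨0, h⟩
        · exact ⟨1, h⟩
        · exact ⟨2, h⟩)
    obtain ⟨v, hv1, hv2⟩ := hW _ hfac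
    rw [Finset.mem_image] at hv1
    obtain ⟨k, -, rfl⟩ := hv1
    fin_cases k
    · exact Or.inl (Finset.mem_image.2 ⟨_, hv2, rfl⟩)
    · exact Or.inr (Or.inl (Finset.mem_image.2 ⟨_, hv2, rfl⟩))
    · exact Or.inr (Or.inr (Finset.mem_image.2 ⟨_, hv2, rfl⟩))
  set W' := W.image (fun v : Fin n => (v : ℕ)) with hW'
  let T : ℕ → ℕ := fun i => if i ∈ W' then 1 else 0
  have hT1 : ∀ i, T i ≤ 1 := by
    intro i
    simp only [T]
    split_ifs <;> omega
  have hT : ∀ p q r : ℕ, p < n → q < n → r < n → IsFr p q r → 1 ≤ T p + T q + T r := by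
    intro p q r hp' hq' hr' hfr
    simp only [T]
    rcases key p q r hp' hq' hr' hfr with h | h | h
    · rw [if_pos h]; omega
    · rw [if_pos h]; omega
    · rw [if_pos h]; omega
  have hcard : W.card = ∑ i ∈ Finset.range n, T i := by
    simp only [T]
    rw [← Finset.card_filter]
    have h1 : (Finset.range n).filter (fun i => i ∈ W') = W' := by
      ext i
      rw [Finset.mem_filter, Finset.mem_range]
      constructor
      · exact fun h => h.2
      · intro h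
        refine ⟨?_, h⟩
        obtain ⟨v, -, rfl⟩ := Finset.mem_image.1 h
        exact v.2
    rw [h1, hW', Finset.card_image_of_injective _ Fin.val_injective]
  have hind : ∀ j, j ≤ L →
      2 * j ≤ ∑ i ∈ Finset.range (4 * j + 3), T i ∧
      (1 ≤ T (4 * j) + T (4 * j + 1) + T (4 * j + 2) →
        2 * j + 1 ≤ ∑ i ∈ Finset.range (4 * j + 3), T i) ∧
      (3 ≤ T (4 * j) + T (4 * j + 1) + T (4 * j + 2) →
        2 * j + 2 ≤ ∑ i ∈ Finset.range (4 * j + 3), T i) := by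
    intro j
    induction j with
    | zero =>
      intro _
      simp only [Finset.sum_range_succ, Finset.sum_range_zero, mul_zero]
      omega
    | succ j ih =>
      intro hj
      have h := ih (by omega)
      obtain ⟨f1, f2, f3, f4, f5, f6, f7, f8⟩ := frames j
      have g1 := hT _ _ _ (by omega) (by omega) (by omega) f1
      have g2 := hT _ _ _ (by omega) (by omega) (by omega) f2
      have g3 := hT _ _ _ (by omega) (by omega) (by omega) f3
      have g4 := hT _ _ _ (by omega) (by omega) (by omega) f4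
      have g5 := hT _ _ _ (by omega) (by omega) (by omega) f5
      have g6 := hT _ _ _ (by omega) (by omega) (by omega) f6
      have g7 := hT _ _ _ (by omega) (by omega) (by omega) f7
      have g8 := hT _ _ _ (by omega) (by omega) (by omega) f8
      have e : 4 * (j + 1) + 3 = 4 * j + 3 + 1 + 1 + 1 + 1 := by omega
      have e0 : 4 * (j + 1) = 4 * j + 4 := by omega
      rw [e, e0]
      simp only [Finset.sum_range_succ _ (4 * j + 3 + 1 + 1 + 1),
        Finset.sum_range_succ _ (4 * j + 3 + 1 + 1), Finset.sum_range_succ _ (4 * j + 3 + 1),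
        Finset.sum_range_succ _ (4 * j + 3)]
      have h0 := hT1 (4 * j)
      have h1 := hT1 (4 * j + 1)
      have h2 := hT1 (4 * j + 2)
      have h3 := hT1 (4 * j + 3)
      have h4 := hT1 (4 * j + 4)
      have h5 := hT1 (4 * j + 5)
      have h6 := hT1 (4 * j + 6)
      simp only [show 4 * j + 3 + 1 = 4 * j + 4 by omega, show 4 * j + 4 + 1 = 4 * j + 5 by omega,
        show 4 * j + 5 + 1 = 4 * j + 6 by omega, show 4 * j + 4 + 2 = 4 * j + 6 by omega]
      omega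
  rw [hcard]
  exact (hind L le_rfl).1

/-- upper bound for a limit superior of suprema -/
theorem limsup_le_of_bound (A : ℕ → Set ℝ) (b : ℕ → ℝ) (c : ℝ) (hb : Tendsto b atTop (𝓝 c))
    (hb0 : ∀ n, 0 ≤ b n) (h0 : ∀ n, ∀ t ∈ A n, 0 ≤ t) (hle : ∀ n, ∀ t ∈ A n, t ≤ b n) :
    limsup (fun n => sSup (A n)) atTop ≤ c := by
  have h1 : ∀ n, sSup (A n) ≤ b n := fun n => Real.sSup_le (hle n) (hb0 n)
  have h2 : ∀ n, 0 ≤ sSup (A n) := fun n => Real.sSup_nonneg (h0 n)
  rw [← hb.limsup_eq]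
  refine limsup_le_limsup (Eventually.of_forall h1) ?_ hb.isBoundedUnder_le
  exact IsCoboundedUnder.of_frequently_ge (a := 0) (Frequently.of_forall h2)

/-- lower bound for a limit superior of suprema -/
theorem half_le_limsup (A : ℕ → Set ℝ) (h1 : ∀ n, ∀ t ∈ A n, t ≤ 1)
    (h : ∀ L : ℕ, 0 < L → ∃ t ∈ A (4 * L + 3), (2 * L : ℝ) / (4 * L + 3) ≤ t) :
    1 / 2 ≤ limsup (fun n => sSup (A n)) atTop := by
  have hu : ∀ n, sSup (A n) ≤ 1 := fun n => Real.sSup_le (h1 n) zero_le_one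
  have hbdd : IsBoundedUnder (· ≤ ·) atTop (fun n => sSup (A n)) :=
    isBoundedUnder_of ⟨1, hu⟩
  have hε : ∀ ε : ℝ, 0 < ε → 1 / 2 - ε ≤ limsup (fun n => sSup (A n)) atTop := by
    intro ε hε
    refine le_limsup_of_frequently_le ?_ hbdd
    rw [frequently_atTop]
    intro N
    obtain ⟨M, hM⟩ := exists_nat_gt (1 / ε)
    set L := N + M + 1 with hL
    obtain ⟨t, ht, hle⟩ := h L (by omega)
    refine ⟨4 * L + 3, by omega, ?_⟩
    refine le_trans ?_ (le_csSup ⟨1, fun x hx => h1 _ x hx⟩ ht)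
    refine le_trans ?_ hle
    have hLM : (M : ℝ) ≤ L := by exact_mod_cast (by omega : M ≤ L)
    have hpos : (0 : ℝ) < 4 * L + 3 := by positivity
    rw [le_div_iff₀ hpos]
    rw [div_lt_iff₀ hε] at hM
    have h3 : 1 < (L : ℝ) * ε := lt_of_lt_of_le hM (by nlinarith)
    nlinarith
  by_contra hcon
  rw [not_le] at hcon
  have := hε ((1 / 2 - limsup (fun n => sSup (A n)) atTop) / 2) (by linarith)
  linarith

theorem ratio_tube (L : ℕ) (hL : 0 < L) :
    ∃ p : Fin (4 * L + 3) → E 3, IsSimplicialPolytope 3 p ∧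
      (2 * L : ℝ) / (4 * L + 3) ≤ transversalRatio (boundary p) := by
  obtain ⟨p, hp, h⟩ := exists_tube L hL
  refine ⟨p, hp, ?_⟩
  have hΔ := isComplex_boundary (by norm_num : 0 < 3) hp
  have hne : {k | ∃ W, IsTransversal (boundary p) W ∧ W.card = k}.Nonempty := by
    refine ⟨_, Finset.univ, ?_, rfl⟩
    intro t ht
    have hne : t.Nonempty := by
      by_contra hcon
      rw [Finset.not_nonempty_iff_eq_empty] at hcon
      have := ht.2 {⟨0, by omega⟩} (hΔ.vert _) (by rw [hcon]; exact Finset.empty_subset _)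
      rw [hcon] at this
      exact Finset.singleton_ne_empty _ this
    obtain ⟨v, hv⟩ := hne
    exact ⟨v, hv, Finset.mem_univ v⟩
  obtain ⟨W, hW, hWcard⟩ := Nat.sInf_mem hne
  have h1 := h W hW
  unfold transversalRatio transversalNumber
  rw [← hWcard]
  have h2 : ((2 * L : ℕ) : ℝ) ≤ W.card := by exact_mod_cast h1
  push_cast at h2 ⊢
  gcongr

theorem tauP_three : 1 / 2 ≤ tauP 3 := by
  apply half_le_limsup
  · rintro n t ⟨p, hp, rfl⟩
    exact transversalRatio_le_one (isComplex_boundary (by norm_num) hp)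
  · intro L hL
    obtain ⟨p, hp, h⟩ := ratio_tube L hL
    exact ⟨_, ⟨p, hp, rfl⟩, h⟩

theorem tauS_three : 1 / 2 ≤ tauS 3 := by
  apply half_le_limsup
  · rintro n t ⟨Δ, hΔ, rfl⟩
    exact transversalRatio_le_one hΔ.1
  · intro L hL
    obtain ⟨p, hp, h⟩ := ratio_tube L hL
    exact ⟨_, ⟨boundary p, isSimplicialSphere_boundary (by norm_num) hp, rfl⟩, h⟩

theorem tauS_le_one (d : ℕ) : tauS d ≤ 1 := by
  refine limsup_le_of_bound _ (fun _ => 1) 1 tendsto_const_nhds (fun _ => zero_le_one) ?_ ?_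
  · rintro n t ⟨Δ, hΔ, rfl⟩
    exact transversalRatio_nonneg _
  · rintro n t ⟨Δ, hΔ, rfl⟩
    exact transversalRatio_le_one hΔ.1

theorem tauP_le_one {d : ℕ} (hd : 0 < d) : tauP d ≤ 1 := by
  refine limsup_le_of_bound _ (fun _ => 1) 1 tendsto_const_nhds (fun _ => zero_le_one) ?_ ?_
  · rintro n t ⟨p, hp, rfl⟩
    exact transversalRatio_nonneg _
  · rintro n t ⟨p, hp, rfl⟩
    exact transversalRatio_le_one (isComplex_boundary hd hp)

theorem tendsto_half : Tendsto (fun n : ℕ => (1 : ℝ) / 2 + 1 / n) atTop (𝓝 (1 / 2)) := by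
  have h := (tendsto_const_nhds (x := (1 : ℝ) / 2) (f := (atTop : Filter ℕ))).add
    (tendsto_one_div_atTop_nhds_zero_nat (𝕜 := ℝ))
  rwa [add_zero] at h

theorem tauS_two : tauS 2 ≤ 1 / 2 := by
  refine limsup_le_of_bound _ _ _ tendsto_half (fun n => by positivity) ?_ ?_
  · rintro n t ⟨Δ, hΔ, rfl⟩
    exact transversalRatio_nonneg _
  · rintro n t ⟨Δ, hΔ, rfl⟩
    exact Circle.ratio_le hΔ

theorem tauP_two : tauP 2 ≤ 1 / 2 := by
  refine limsup_le_of_bound _ _ _ tendsto_half (fun n => by positivity) ?_ ?_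
  · rintro n t ⟨p, hp, rfl⟩
    exact transversalRatio_nonneg _
  · rintro n t ⟨p, hp, rfl⟩
    exact Circle.ratio_le (isSimplicialSphere_boundary (by norm_num) hp)

/-- the asymptotic transversal ratios are weakly increasing in the dimension -/
theorem monotone (d : ℕ) (hd : 2 ≤ d) : tauP d ≤ tauP (d + 1) ∧ tauS d ≤ tauS (d + 1) := by
  rcases Nat.lt_or_ge d 3 with h | h
  · obtain rfl : d = 2 := by omega
    exact ⟨tauP_two.trans tauP_three, tauS_two.trans tauS_three⟩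
  · rw [tauP_eq_one (by omega : 4 ≤ d + 1), tauS_eq_one (by omega : 4 ≤ d + 1)]
    exact ⟨tauP_le_one (by omega), tauS_le_one d⟩

end Pool.Agent.V11153.Tube
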