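import Pool.Agent.V11153.Dress1

set_option autoImplicit false

namespace Pool.Agent.V11153.Dress

open Finset

/-- the face of the regular subdivision induced by `u` selected by the functional `c` -/
def face (u : Finset (Fin 9) → ℝ) (c : Fin 9 → ℝ) : Set (Finset (Fin 9)) :=
  {B : Finset (Fin 9) | B.card = 3 ∧ ∀ B' : Finset (Fin 9), B'.card = 3 →
    u B - ∑ i ∈ B, c i ≤ u B' - ∑ i ∈ B', c i}

def Refines (u v : Finset (Fin 9) → ℝ) : Prop := ∀ c, ∃ c', face u c ⊆ face v c'

theorem exists_triple {B : Finset (Fin 9)} (hB : B.card = 3) :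
    ∃ a b c : Fin 9, a < b ∧ b < c ∧ B = insert a (insert b {c}) := by
  obtain ⟨a, b, c, hab, hac, hbc, rfl⟩ := Finset.card_eq_three.1 hB
  rcases lt_or_gt_of_ne hab with h1 | h1 <;> rcases lt_or_gt_of_ne hac with h2 | h2 <;>
    rcases lt_or_gt_of_ne hbc with h3 | h3
  · exact ⟨a, b, c, h1, h3, rfl⟩
  · exact ⟨a, c, b, h2, h3, by ext x; simp only [mem_insert, mem_singleton]; tauto⟩
  · exact absurd (h1.trans h3) (not_lt_of_gt h2)
  · exact ⟨c, a, b, h2, h1, by ext x; simp only [mem_insert, mem_singleton]; tauto⟩
  · exact ⟨b, a, c, h1, h2, by ext x; simp only [mem_insert, mem_singleton]; tauto⟩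
  · exact absurd (h3.trans h1) (not_lt_of_gt h2)
  · exact ⟨b, c, a, h3, h2, by ext x; simp only [mem_insert, mem_singleton]; tauto⟩
  · exact ⟨c, b, a, h3, h1, by ext x; simp only [mem_insert, mem_singleton]; tauto⟩

theorem sum_ins (f : Fin 9 → ℝ) {a b c : Fin 9} (hab : a ≠ b) (hac : a ≠ c) (hbc : b ≠ c) :
    ∑ t ∈ insert a (insert b {c}), f t = f a + (f b + f c) := by
  rw [Finset.sum_insert (by simp [hab, hac]), Finset.sum_insert (by simp [hbc]),
    Finset.sum_singleton]

theorem card_ins {a b c : Fin 9} (hab : a ≠ b) (hac : a ≠ c) (hbc : b ≠ c) :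
    (insert a (insert b {c}) : Finset (Fin 9)).card = 3 := by
  rw [Finset.card_insert_of_notMem (by simp [hab, hac]),
    Finset.card_insert_of_notMem (by simp [hbc]), Finset.card_singleton]

theorem cell {v : Finset (Fin 9) → ℝ} (h : Refines w v) {s i j k l : Fin 9}
    (hc : Chk s i j k l) :
    v (insert i (insert j {s})) + v (insert k (insert l {s})) =
      v (insert i (insert k {s})) + v (insert j (insert l {s})) := by
  obtain ⟨⟨his, hjs, hks, hls, hij, hik, hil, hjk, hjl, hkl⟩, e1, e2, e3, e4, e5, hall⟩ := hc
  obtain ⟨c', hsub⟩ := h (fun t => (Cf s i j k l t : ℝ) / 2)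
  have key : ∀ a b t : Fin 9, a ≠ b → a ≠ t → b ≠ t →
      w (insert a (insert b {t})) - ∑ x ∈ insert a (insert b {t}), (Cf s i j k l x : ℝ) / 2 =
        (val s i j k l a b t : ℝ) / 2 := by
    intro a b t hab hat hbt
    rw [w_ins hab hat hbt, sum_ins _ hab hat hbt]
    unfold val; push_cast; ring
  have hlow : ∀ B' : Finset (Fin 9), B'.card = 3 →
      (-20 : ℝ) ≤ w B' - ∑ x ∈ B', (Cf s i j k l x : ℝ) / 2 := by
    intro B' hB'
    obtain ⟨a, b, t, h1, h2, rfl⟩ := exists_triple hB'
    rw [key a b t h1.ne (h1.trans h2).ne h2.ne]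
    have h3 := hall a b t h1 h2
    have h4 : (-40 : ℝ) ≤ (val s i j k l a b t : ℝ) := by exact_mod_cast h3
    linarith
  have mem : ∀ a b t : Fin 9, a ≠ b → a ≠ t → b ≠ t → val s i j k l a b t = -40 →
      insert a (insert b {t}) ∈ face w (fun t => (Cf s i j k l t : ℝ) / 2) := by
    intro a b t hab hat hbt hv
    refine ⟨card_ins hab hat hbt, fun B' hB' => ?_⟩
    rw [key a b t hab hat hbt, hv]
    have := hlow B' hB'
    push_cast
    linarith
  have m1 := hsub (mem i j s hij his hjs e1)
  have m2 := hsub (mem k l s hkl hks hls e2)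
  have m3 := hsub (mem i k s hik his hks e3)
  have m4 := hsub (mem j l s hjl hjs hls e4)
  have a1 := m1.2 _ m2.1
  have a2 := m2.2 _ m3.1
  have a3 := m3.2 _ m4.1
  have a4 := m4.2 _ m1.1
  rw [sum_ins _ hij his hjs] at a1 a4
  rw [sum_ins _ hkl hks hls] at a1 a2
  rw [sum_ins _ hik his hks] at a2 a3
  rw [sum_ins _ hjl hjs hls] at a3 a4
  linarith

def dec (n : ℕ) : Finset (Fin 9) := Finset.univ.filter (fun t => n.testBit t)

theorem dec_cd : ∀ x y z : Fin 9, x ≠ y → x ≠ z → y ≠ z →
    dec (cd x y z) = insert x (insert y {z}) := by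
  decide +kernel

def P (v : Finset (Fin 9) → ℝ) (lam : ℝ) (a : Fin 9 → ℝ) (n : ℕ) : Prop :=
  v (dec n) = lam * (W0 n : ℝ) + ∑ t ∈ dec n, a t

theorem step {v : Finset (Fin 9) → ℝ} (h : Refines w v) {lam : ℝ} {a : Fin 9 → ℝ}
    (s i j k l : Fin 9) {n1 n2 n3 n4 : ℕ} (hc : Chk s i j k l)
    (h2 : P v lam a n2) (h3 : P v lam a n3) (h4 : P v lam a n4)
    (e1 : cd i j s = n1) (e2 : cd k l s = n2) (e3 : cd i k s = n3) (e4 : cd j l s = n4) :
    P v lam a n1 := by
  subst e1 e2 e3 e4
  have hr := cell h hc
  obtain ⟨⟨his, hjs, hks, hls, hij, hik, hil, hjk, hjl, hkl⟩, -, -, -, -, e5, -⟩ := hc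
  unfold P at *
  rw [dec_cd i j s hij his hjs, sum_ins _ hij his hjs]
  rw [dec_cd k l s hkl hks hls, sum_ins _ hkl hks hls] at h2
  rw [dec_cd i k s hik his hks, sum_ins _ hik his hks] at h3
  rw [dec_cd j l s hjl hjs hls, sum_ins _ hjl hjs hls] at h4
  have e6 : (W0 (cd i j s) : ℝ) + W0 (cd k l s) = W0 (cd i k s) + W0 (cd j l s) := by
    exact_mod_cast e5
  have e7 : lam * (W0 (cd i j s) : ℝ) + lam * W0 (cd k l s) =
      lam * W0 (cd i k s) + lam * W0 (cd j l s) := by
    rw [← mul_add, ← mul_add, e6]
  linarith

theorem baseP {v : Finset (Fin 9) → ℝ} {lam : ℝ} {a : Fin 9 → ℝ} (x y z : Fin 9) (n m : ℕ)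
    (hd : x ≠ y ∧ x ≠ z ∧ y ≠ z) (e : cd x y z = n) (hw : W0 n = m)
    (h : v (dec n) = lam * (m : ℝ) + (a x + (a y + a z))) : P v lam a n := by
  subst e hw
  obtain ⟨h1, h2, h3⟩ := hd
  unfold P
  rw [h, dec_cd x y z h1 h2 h3, sum_ins _ h1 h2 h3]

def codes84 : List ℕ := [7, 11, 13, 14, 19, 21, 22, 25, 26, 28, 35, 37, 38, 41, 42, 44, 49, 50, 52, 56, 67, 69, 70, 73, 74, 76, 81, 82, 84, 88, 97, 98, 100, 104, 112, 131, 133, 134, 137, 138, 140, 145, 146, 148, 152, 161, 162, 164, 168, 176, 193, 194, 196, 200, 208, 224, 259, 261, 262, 265, 266, 268, 273, 274, 276, 280, 289, 290, 292, 296, 304, 321, 322, 324, 328, 336, 352, 385, 386, 388, 392, 400, 416, 448]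

theorem cd_mem : ∀ a b c : Fin 9, a < b → b < c → cd a b c ∈ codes84 := by
  decide +kernel

theorem exists_base (v : Finset (Fin 9) → ℝ) : ∃ (lam : ℝ) (a : Fin 9 → ℝ),
    v (dec 146) = lam * ((1 : ℕ) : ℝ) + (a 1 + (a 4 + a 7)) ∧
    v (dec 76) = lam * ((0 : ℕ) : ℝ) + (a 2 + (a 3 + a 6)) ∧
    v (dec 70) = lam * ((0 : ℕ) : ℝ) + (a 1 + (a 2 + a 6)) ∧
    v (dec 266) = lam * ((0 : ℕ) : ℝ) + (a 1 + (a 3 + a 8)) ∧
    v (dec 14) = lam * ((0 : ℕ) : ℝ) + (a 1 + (a 2 + a 3)) ∧
    v (dec 26) = lam * ((0 : ℕ) : ℝ) + (a 1 + (a 3 + a 4)) ∧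
    v (dec 38) = lam * ((0 : ℕ) : ℝ) + (a 1 + (a 2 + a 5)) ∧
    v (dec 74) = lam * ((0 : ℕ) : ℝ) + (a 1 + (a 3 + a 6)) ∧
    v (dec 11) = lam * ((0 : ℕ) : ℝ) + (a 0 + (a 1 + a 3)) ∧
    v (dec 148) = lam * ((0 : ℕ) : ℝ) + (a 2 + (a 4 + a 7)) := by
  refine ⟨1 * v (dec 146) + 1 * v (dec 76) + (-1) * v (dec 74) + (-1) * v (dec 148),
    ![(1 / 3) * v (dec 76) + (1 / 3) * v (dec 70) + (-2 / 3) * v (dec 14) + (-2 / 3) * v (dec 74) + 1 * v (dec 11),
      (-2 / 3) * v (dec 76) + (1 / 3) * v (dec 70) + (1 / 3) * v (dec 14) + (1 / 3) * v (dec 74),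
      (1 / 3) * v (dec 76) + (1 / 3) * v (dec 70) + (1 / 3) * v (dec 14) + (-2 / 3) * v (dec 74),
      (1 / 3) * v (dec 76) + (-2 / 3) * v (dec 70) + (1 / 3) * v (dec 14) + (1 / 3) * v (dec 74),
      (1 / 3) * v (dec 76) + (1 / 3) * v (dec 70) + (-2 / 3) * v (dec 14) + 1 * v (dec 26) + (-2 / 3) * v (dec 74),
      (1 / 3) * v (dec 76) + (-2 / 3) * v (dec 70) + (-2 / 3) * v (dec 14) + 1 * v (dec 38) + (1 / 3) * v (dec 74),
      (1 / 3) * v (dec 76) + (1 / 3) * v (dec 70) + (-2 / 3) * v (dec 14) + (1 / 3) * v (dec 74),
      (-2 / 3) * v (dec 76) + (-2 / 3) * v (dec 70) + (1 / 3) * v (dec 14) + (-1) * v (dec 26) + (4 / 3) * v (dec 74) + 1 * v (dec 148),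
      (1 / 3) * v (dec 76) + (1 / 3) * v (dec 70) + 1 * v (dec 266) + (-2 / 3) * v (dec 14) + (-2 / 3) * v (dec 74)], ?_, ?_, ?_, ?_, ?_, ?_, ?_, ?_, ?_, ?_⟩
  all_goals
    simp only [Matrix.cons_val]
    ring

set_option maxRecDepth 100000 in
theorem affine_form {v : Finset (Fin 9) → ℝ} (h : Refines w v) :
    ∃ (lam : ℝ) (a : Fin 9 → ℝ), ∀ n ∈ codes84, P v lam a n := by
  obtain ⟨lam, a, b146, b76, b70, b266, b14, b26, b38, b74, b11, b148⟩ := exists_base v
  refine ⟨lam, a, ?_⟩
  have h146 : P v lam a 146 := baseP 1 4 7 146 1 (by decide) (by decide +kernel) (by decide +kernel) b146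
  have h76 : P v lam a 76 := baseP 2 3 6 76 0 (by decide) (by decide +kernel) (by decide +kernel) b76
  have h70 : P v lam a 70 := baseP 1 2 6 70 0 (by decide) (by decide +kernel) (by decide +kernel) b70
  have h266 : P v lam a 266 := baseP 1 3 8 266 0 (by decide) (by decide +kernel) (by decide +kernel) b266
  have h14 : P v lam a 14 := baseP 1 2 3 14 0 (by decide) (by decide +kernel) (by decide +kernel) b14
  have h26 : P v lam a 26 := baseP 1 3 4 26 0 (by decide) (by decide +kernel) (by decide +kernel) b26
  have h38 : P v lam a 38 := baseP 1 2 5 38 0 (by decide) (by decide +kernel) (by decide +kernel) b38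
  have h74 : P v lam a 74 := baseP 1 3 6 74 0 (by decide) (by decide +kernel) (by decide +kernel) b74
  have h11 : P v lam a 11 := baseP 0 1 3 11 0 (by decide) (by decide +kernel) (by decide +kernel) b11
  have h148 : P v lam a 148 := baseP 2 4 7 148 0 (by decide) (by decide +kernel) (by decide +kernel) b148
  have h7 : P v lam a 7 := step h 1 2 0 6 3 (by decide +kernel) h74 h70 h11
    (by decide +kernel) (by decide +kernel) (by decide +kernel) (by decide +kernel)
  have h67 : P v lam a 67 := step h 1 0 6 2 3 (by decide +kernel) h14 h7 h74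
    (by decide +kernel) (by decide +kernel) (by decide +kernel) (by decide +kernel)
  have h262 : P v lam a 262 := step h 1 2 8 0 3 (by decide +kernel) h11 h7 h266
    (by decide +kernel) (by decide +kernel) (by decide +kernel) (by decide +kernel)
  have h98 : P v lam a 98 := step h 1 5 6 2 0 (by decide +kernel) h7 h38 h67
    (by decide +kernel) (by decide +kernel) (by decide +kernel) (by decide +kernel)
  have h322 : P v lam a 322 := step h 1 8 6 2 0 (by decide +kernel) h7 h262 h67
    (by decide +kernel) (by decide +kernel) (by decide +kernel) (by decide +kernel)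
  have h82 : P v lam a 82 := step h 1 4 6 3 0 (by decide +kernel) h11 h26 h67
    (by decide +kernel) (by decide +kernel) (by decide +kernel) (by decide +kernel)
  have h131 : P v lam a 131 := step h 1 0 7 3 4 (by decide +kernel) h26 h11 h146
    (by decide +kernel) (by decide +kernel) (by decide +kernel) (by decide +kernel)
  have h42 : P v lam a 42 := step h 1 3 5 0 6 (by decide +kernel) h67 h11 h98
    (by decide +kernel) (by decide +kernel) (by decide +kernel) (by decide +kernel)
  have h162 : P v lam a 162 := step h 1 5 7 3 0 (by decide +kernel) h11 h42 h131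
    (by decide +kernel) (by decide +kernel) (by decide +kernel) (by decide +kernel)
  have h386 : P v lam a 386 := step h 1 8 7 3 0 (by decide +kernel) h11 h266 h131
    (by decide +kernel) (by decide +kernel) (by decide +kernel) (by decide +kernel)
  have h22 : P v lam a 22 := step h 1 4 2 3 5 (by decide +kernel) h42 h26 h38
    (by decide +kernel) (by decide +kernel) (by decide +kernel) (by decide +kernel)
  have h13 : P v lam a 13 := step h 2 0 3 1 6 (by decide +kernel) h70 h7 h76
    (by decide +kernel) (by decide +kernel) (by decide +kernel) (by decide +kernel)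
  have h268 : P v lam a 268 := step h 2 8 3 1 0 (by decide +kernel) h7 h262 h13
    (by decide +kernel) (by decide +kernel) (by decide +kernel) (by decide +kernel)
  have h84 : P v lam a 84 := step h 2 6 4 3 1 (by decide +kernel) h14 h76 h22
    (by decide +kernel) (by decide +kernel) (by decide +kernel) (by decide +kernel)
  have h28 : P v lam a 28 := step h 2 3 4 1 6 (by decide +kernel) h70 h14 h84
    (by decide +kernel) (by decide +kernel) (by decide +kernel) (by decide +kernel)
  have h140 : P v lam a 140 := step h 2 3 7 1 4 (by decide +kernel) h22 h14 h148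
    (by decide +kernel) (by decide +kernel) (by decide +kernel) (by decide +kernel)
  have h134 : P v lam a 134 := step h 2 1 7 3 4 (by decide +kernel) h28 h14 h148
    (by decide +kernel) (by decide +kernel) (by decide +kernel) (by decide +kernel)
  have h276 : P v lam a 276 := step h 2 8 4 3 1 (by decide +kernel) h14 h268 h22
    (by decide +kernel) (by decide +kernel) (by decide +kernel) (by decide +kernel)
  have h100 : P v lam a 100 := step h 2 6 5 3 1 (by decide +kernel) h14 h76 h38
    (by decide +kernel) (by decide +kernel) (by decide +kernel) (by decide +kernel)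
  have h44 : P v lam a 44 := step h 2 3 5 1 6 (by decide +kernel) h70 h14 h100
    (by decide +kernel) (by decide +kernel) (by decide +kernel) (by decide +kernel)
  have h164 : P v lam a 164 := step h 2 7 5 3 1 (by decide +kernel) h14 h140 h38
    (by decide +kernel) (by decide +kernel) (by decide +kernel) (by decide +kernel)
  have h292 : P v lam a 292 := step h 2 8 5 3 1 (by decide +kernel) h14 h268 h38
    (by decide +kernel) (by decide +kernel) (by decide +kernel) (by decide +kernel)
  have h52 : P v lam a 52 := step h 2 4 5 1 6 (by decide +kernel) h70 h22 h100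
    (by decide +kernel) (by decide +kernel) (by decide +kernel) (by decide +kernel)
  have h25 : P v lam a 25 := step h 3 0 4 1 2 (by decide +kernel) h14 h11 h28
    (by decide +kernel) (by decide +kernel) (by decide +kernel) (by decide +kernel)
  have h41 : P v lam a 41 := step h 3 0 5 1 2 (by decide +kernel) h14 h11 h44
    (by decide +kernel) (by decide +kernel) (by decide +kernel) (by decide +kernel)
  have h73 : P v lam a 73 := step h 3 0 6 1 2 (by decide +kernel) h14 h11 h76
    (by decide +kernel) (by decide +kernel) (by decide +kernel) (by decide +kernel)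
  have h138 : P v lam a 138 := step h 3 1 7 0 2 (by decide +kernel) h13 h11 h140
    (by decide +kernel) (by decide +kernel) (by decide +kernel) (by decide +kernel)
  have h56 : P v lam a 56 := step h 3 5 4 1 0 (by decide +kernel) h11 h42 h25
    (by decide +kernel) (by decide +kernel) (by decide +kernel) (by decide +kernel)
  have h88 : P v lam a 88 := step h 3 6 4 1 0 (by decide +kernel) h11 h74 h25
    (by decide +kernel) (by decide +kernel) (by decide +kernel) (by decide +kernel)
  have h152 : P v lam a 152 := step h 3 7 4 1 0 (by decide +kernel) h11 h138 h25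
    (by decide +kernel) (by decide +kernel) (by decide +kernel) (by decide +kernel)
  have h280 : P v lam a 280 := step h 3 8 4 1 0 (by decide +kernel) h11 h266 h25
    (by decide +kernel) (by decide +kernel) (by decide +kernel) (by decide +kernel)
  have h104 : P v lam a 104 := step h 3 6 5 1 0 (by decide +kernel) h11 h74 h41
    (by decide +kernel) (by decide +kernel) (by decide +kernel) (by decide +kernel)
  have h168 : P v lam a 168 := step h 3 7 5 1 0 (by decide +kernel) h11 h138 h41
    (by decide +kernel) (by decide +kernel) (by decide +kernel) (by decide +kernel)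
  have h296 : P v lam a 296 := step h 3 8 5 1 0 (by decide +kernel) h11 h266 h41
    (by decide +kernel) (by decide +kernel) (by decide +kernel) (by decide +kernel)
  have h200 : P v lam a 200 := step h 3 7 6 1 0 (by decide +kernel) h11 h138 h73
    (by decide +kernel) (by decide +kernel) (by decide +kernel) (by decide +kernel)
  have h328 : P v lam a 328 := step h 3 8 6 1 0 (by decide +kernel) h11 h266 h73
    (by decide +kernel) (by decide +kernel) (by decide +kernel) (by decide +kernel)
  have h21 : P v lam a 21 := step h 4 2 0 1 3 (by decide +kernel) h26 h22 h25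
    (by decide +kernel) (by decide +kernel) (by decide +kernel) (by decide +kernel)
  have h81 : P v lam a 81 := step h 4 0 6 2 1 (by decide +kernel) h22 h21 h82
    (by decide +kernel) (by decide +kernel) (by decide +kernel) (by decide +kernel)
  have h19 : P v lam a 19 := step h 4 1 0 7 2 (by decide +kernel) h148 h146 h21
    (by decide +kernel) (by decide +kernel) (by decide +kernel) (by decide +kernel)
  have h145 : P v lam a 145 := step h 4 0 7 1 2 (by decide +kernel) h22 h19 h148
    (by decide +kernel) (by decide +kernel) (by decide +kernel) (by decide +kernel)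
  have h274 : P v lam a 274 := step h 4 1 8 0 2 (by decide +kernel) h21 h19 h276
    (by decide +kernel) (by decide +kernel) (by decide +kernel) (by decide +kernel)
  have h50 : P v lam a 50 := step h 4 1 5 0 3 (by decide +kernel) h25 h19 h56
    (by decide +kernel) (by decide +kernel) (by decide +kernel) (by decide +kernel)
  have h49 : P v lam a 49 := step h 4 0 5 1 3 (by decide +kernel) h26 h19 h56
    (by decide +kernel) (by decide +kernel) (by decide +kernel) (by decide +kernel)
  have h112 : P v lam a 112 := step h 4 6 5 1 0 (by decide +kernel) h19 h82 h49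
    (by decide +kernel) (by decide +kernel) (by decide +kernel) (by decide +kernel)
  have h176 : P v lam a 176 := step h 4 7 5 1 0 (by decide +kernel) h19 h146 h49
    (by decide +kernel) (by decide +kernel) (by decide +kernel) (by decide +kernel)
  have h304 : P v lam a 304 := step h 4 8 5 1 0 (by decide +kernel) h19 h274 h49
    (by decide +kernel) (by decide +kernel) (by decide +kernel) (by decide +kernel)
  have h208 : P v lam a 208 := step h 4 7 6 1 0 (by decide +kernel) h19 h146 h81
    (by decide +kernel) (by decide +kernel) (by decide +kernel) (by decide +kernel)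
  have h336 : P v lam a 336 := step h 4 8 6 1 0 (by decide +kernel) h19 h274 h81
    (by decide +kernel) (by decide +kernel) (by decide +kernel) (by decide +kernel)
  have h400 : P v lam a 400 := step h 4 8 7 1 0 (by decide +kernel) h19 h274 h145
    (by decide +kernel) (by decide +kernel) (by decide +kernel) (by decide +kernel)
  have h37 : P v lam a 37 := step h 5 2 0 1 3 (by decide +kernel) h42 h38 h41
    (by decide +kernel) (by decide +kernel) (by decide +kernel) (by decide +kernel)
  have h97 : P v lam a 97 := step h 5 0 6 2 1 (by decide +kernel) h38 h37 h98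
    (by decide +kernel) (by decide +kernel) (by decide +kernel) (by decide +kernel)
  have h161 : P v lam a 161 := step h 5 0 7 2 1 (by decide +kernel) h38 h37 h162
    (by decide +kernel) (by decide +kernel) (by decide +kernel) (by decide +kernel)
  have h224 : P v lam a 224 := step h 5 7 6 2 0 (by decide +kernel) h37 h164 h97
    (by decide +kernel) (by decide +kernel) (by decide +kernel) (by decide +kernel)
  have h352 : P v lam a 352 := step h 5 8 6 2 0 (by decide +kernel) h37 h292 h97
    (by decide +kernel) (by decide +kernel) (by decide +kernel) (by decide +kernel)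
  have h416 : P v lam a 416 := step h 5 8 7 2 0 (by decide +kernel) h37 h292 h161
    (by decide +kernel) (by decide +kernel) (by decide +kernel) (by decide +kernel)
  have h194 : P v lam a 194 := step h 6 1 7 0 3 (by decide +kernel) h73 h67 h200
    (by decide +kernel) (by decide +kernel) (by decide +kernel) (by decide +kernel)
  have h133 : P v lam a 133 := step h 7 0 2 1 3 (by decide +kernel) h138 h131 h140
    (by decide +kernel) (by decide +kernel) (by decide +kernel) (by decide +kernel)
  have h137 : P v lam a 137 := step h 7 0 3 1 2 (by decide +kernel) h134 h131 h140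
    (by decide +kernel) (by decide +kernel) (by decide +kernel) (by decide +kernel)
  have h193 : P v lam a 193 := step h 7 0 6 2 1 (by decide +kernel) h134 h133 h194
    (by decide +kernel) (by decide +kernel) (by decide +kernel) (by decide +kernel)
  have h388 : P v lam a 388 := step h 7 8 2 1 0 (by decide +kernel) h131 h386 h133
    (by decide +kernel) (by decide +kernel) (by decide +kernel) (by decide +kernel)
  have h385 : P v lam a 385 := step h 7 0 8 1 2 (by decide +kernel) h134 h131 h388
    (by decide +kernel) (by decide +kernel) (by decide +kernel) (by decide +kernel)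
  have h392 : P v lam a 392 := step h 7 8 3 1 0 (by decide +kernel) h131 h386 h137
    (by decide +kernel) (by decide +kernel) (by decide +kernel) (by decide +kernel)
  have h448 : P v lam a 448 := step h 7 8 6 1 0 (by decide +kernel) h131 h386 h193
    (by decide +kernel) (by decide +kernel) (by decide +kernel) (by decide +kernel)
  have h261 : P v lam a 261 := step h 8 2 0 1 7 (by decide +kernel) h386 h262 h385
    (by decide +kernel) (by decide +kernel) (by decide +kernel) (by decide +kernel)
  have h265 : P v lam a 265 := step h 8 3 0 1 7 (by decide +kernel) h386 h266 h385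
    (by decide +kernel) (by decide +kernel) (by decide +kernel) (by decide +kernel)
  have h259 : P v lam a 259 := step h 8 1 0 4 7 (by decide +kernel) h400 h274 h385
    (by decide +kernel) (by decide +kernel) (by decide +kernel) (by decide +kernel)
  have h273 : P v lam a 273 := step h 8 4 0 1 7 (by decide +kernel) h386 h274 h385
    (by decide +kernel) (by decide +kernel) (by decide +kernel) (by decide +kernel)
  have h289 : P v lam a 289 := step h 8 0 5 1 6 (by decide +kernel) h322 h259 h352
    (by decide +kernel) (by decide +kernel) (by decide +kernel) (by decide +kernel)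
  have h321 : P v lam a 321 := step h 8 6 0 1 7 (by decide +kernel) h386 h322 h385
    (by decide +kernel) (by decide +kernel) (by decide +kernel) (by decide +kernel)
  have h290 : P v lam a 290 := step h 1 5 8 2 0 (by decide +kernel) h7 h38 h259
    (by decide +kernel) (by decide +kernel) (by decide +kernel) (by decide +kernel)
  have h35 : P v lam a 35 := step h 1 5 0 2 8 (by decide +kernel) h262 h38 h259
    (by decide +kernel) (by decide +kernel) (by decide +kernel) (by decide +kernel)
  have h196 : P v lam a 196 := step h 2 6 7 1 0 (by decide +kernel) h7 h70 h133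
    (by decide +kernel) (by decide +kernel) (by decide +kernel) (by decide +kernel)
  have h69 : P v lam a 69 := step h 2 6 0 1 7 (by decide +kernel) h134 h70 h133
    (by decide +kernel) (by decide +kernel) (by decide +kernel) (by decide +kernel)
  have h324 : P v lam a 324 := step h 2 8 6 1 0 (by decide +kernel) h7 h262 h69
    (by decide +kernel) (by decide +kernel) (by decide +kernel) (by decide +kernel)
  intro n hn
  simp only [codes84, List.mem_cons, List.not_mem_nil, or_false] at hn
  rcases hn with rfl | rfl | rfl | rfl | rfl | rfl | rfl | rfl | rfl | rfl | rfl | rfl | rfl | rfl | rfl | rfl | rfl | rfl | rfl | rfl | rfl | rfl | rfl | rfl | rfl | rfl | rfl | rfl | rfl | rfl | rfl | rfl | rfl | rfl | rfl | rfl | rfl | rfl | rfl | rfl | rfl | rfl | rfl | rfl | rfl | rfl | rfl | rfl | rfl | rfl | rfl | rfl | rfl | rfl | rfl | rfl | rfl | rfl | rfl | rfl | rfl | rfl | rfl | rfl | rfl | rfl | rfl | rfl | rfl | rfl | rfl | rfl | rfl | rfl | rfl | rfl | rfl | rfl | rfl | rfl | rfl | rfl | rfl | rfl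
  · exact h7
  · exact h11
  · exact h13
  · exact h14
  · exact h19
  · exact h21
  · exact h22
  · exact h25
  · exact h26
  · exact h28
  · exact h35
  · exact h37
  · exact h38
  · exact h41
  · exact h42
  · exact h44
  · exact h49
  · exact h50
  · exact h52
  · exact h56
  · exact h67
  · exact h69
  · exact h70
  · exact h73
  · exact h74
  · exact h76
  · exact h81
  · exact h82
  · exact h84
  · exact h88
  · exact h97
  · exact h98
  · exact h100
  · exact h104
  · exact h112
  · exact h131
  · exact h133
  · exact h134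
  · exact h137
  · exact h138
  · exact h140
  · exact h145
  · exact h146
  · exact h148
  · exact h152
  · exact h161
  · exact h162
  · exact h164
  · exact h168
  · exact h176
  · exact h193
  · exact h194
  · exact h196
  · exact h200
  · exact h208
  · exact h224
  · exact h259
  · exact h261
  · exact h262
  · exact h265
  · exact h266
  · exact h268
  · exact h273
  · exact h274
  · exact h276
  · exact h280
  · exact h289
  · exact h290
  · exact h292
  · exact h296
  · exact h304
  · exact h321
  · exact h322
  · exact h324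
  · exact h328
  · exact h336
  · exact h352
  · exact h385
  · exact h386
  · exact h388
  · exact h392
  · exact h400
  · exact h416
  · exact h448

end Pool.Agent.V11153.Dress
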