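import Mathlib

set_option autoImplicit false

namespace Pool.Agent.V11153.Dress

open Finset

/-- table of the values of the tropical Plücker vector, in base 4, indexed by bit masks -/
def big : ℕ := 528294531135665246380978688841659684336676727107335488174637718644057490196878554450211569465465295382146574509280010324907652924807660949237762780327395038916632613645412060393977306527377107297305792002343658032623874081579656247473379744377292061703022400745467019264

def W0 (c : ℕ) : ℕ := (big / 4 ^ c) % 4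

/-- bit mask of the 3-set `{a,b,c}` -/
def cd (a b c : Fin 9) : ℕ := 2 ^ (a : ℕ) + (2 ^ (b : ℕ) + 2 ^ (c : ℕ))

def code (S : Finset (Fin 9)) : ℕ := ∑ i ∈ S, 2 ^ (i : ℕ)

theorem code_ins {a b c : Fin 9} (hab : a ≠ b) (hac : a ≠ c) (hbc : b ≠ c) :
    code (insert a (insert b {c})) = cd a b c := by
  unfold code cd
  rw [Finset.sum_insert (by simp [hab, hac]), Finset.sum_insert (by simp [hbc]),
    Finset.sum_singleton]

noncomputable def w (S : Finset (Fin 9)) : ℝ := (W0 (code S) : ℝ)

theorem w_ins {a b c : Fin 9} (hab : a ≠ b) (hac : a ≠ c) (hbc : b ≠ c) :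
    w (insert a (insert b {c})) = (W0 (cd a b c) : ℝ) := by
  unfold w; rw [code_ins hab hac hbc]

def Dist (s i j k l : Fin 9) : Prop :=
  i ≠ s ∧ j ≠ s ∧ k ≠ s ∧ l ≠ s ∧ i ≠ j ∧ i ≠ k ∧ i ≠ l ∧ j ≠ k ∧ j ≠ l ∧ k ≠ l

instance (s i j k l : Fin 9) : Decidable (Dist s i j k l) := by
  unfold Dist; infer_instance

def Pl (s i j k l : Fin 9) : Prop :=
    (W0 (cd i j s) + W0 (cd k l s) = W0 (cd i k s) + W0 (cd j l s) ∧
      W0 (cd i j s) + W0 (cd k l s) ≤ W0 (cd i l s) + W0 (cd j k s)) ∨
     (W0 (cd i j s) + W0 (cd k l s) = W0 (cd i l s) + W0 (cd j k s) ∧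
      W0 (cd i j s) + W0 (cd k l s) ≤ W0 (cd i k s) + W0 (cd j l s)) ∨
     (W0 (cd i k s) + W0 (cd j l s) = W0 (cd i l s) + W0 (cd j k s) ∧
      W0 (cd i k s) + W0 (cd j l s) ≤ W0 (cd i j s) + W0 (cd k l s))

instance (s i j k l : Fin 9) : Decidable (Pl s i j k l) := by
  unfold Pl; infer_instance

set_option maxRecDepth 100000 in
/-- the tropical Plücker relations, over ℕ -/
theorem plucker : ∀ s i j k l : Fin 9, Dist s i j k l → Pl s i j k l := by
  decide +kernel


/-! ### Local cells -/

def X (s i j k l : Fin 9) : ℤ :=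
  (W0 (cd i j s) : ℤ) + W0 (cd i k s) - (W0 (cd i j s) + W0 (cd k l s) - W0 (cd i l s))

def Cf (s i j k l t : Fin 9) : ℤ :=
  if t = s then 40 else if t = i then X s i j k l
  else if t = j then 2 * W0 (cd i j s) - X s i j k l
  else if t = k then 2 * W0 (cd i k s) - X s i j k l
  else if t = l then 2 * W0 (cd i l s) - X s i j k l else -40

/-- twice (value minus linear functional) at `{a,b,c}` -/
def val (s i j k l a b c : Fin 9) : ℤ :=
  2 * (W0 (cd a b c) : ℤ) - (Cf s i j k l a + Cf s i j k l b + Cf s i j k l c)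

def Chk (s i j k l : Fin 9) : Prop :=
  Dist s i j k l ∧
  val s i j k l i j s = -40 ∧ val s i j k l k l s = -40 ∧
  val s i j k l i k s = -40 ∧ val s i j k l j l s = -40 ∧
  W0 (cd i j s) + W0 (cd k l s) = W0 (cd i k s) + W0 (cd j l s) ∧
  ∀ a b c : Fin 9, a < b → b < c → -40 ≤ val s i j k l a b c

instance (s i j k l : Fin 9) : Decidable (Chk s i j k l) := by
  unfold Chk; infer_instance

end Pool.Agent.V11153.Dress
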